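import Pool.Agent.MP_64e20d_co.Defs

set_option autoImplicit false

namespace Pool.Agent.MP_64e20d_co

/-- Outerplanar graphs on `Fin n`, with the vertices placed on a circle in their natural order and
the edges drawn as chords: no two chords cross. -/
def NoCrossingChords {n : ℕ} (H : SimpleGraph (Fin n)) : Prop :=
  ∀ a b c d : Fin n, a < b → b < c → c < d → ¬ (H.Adj a c ∧ H.Adj b d)

end Pool.Agent.MP_64e20d_co
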