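import Pool.Agent.MP_64e20d_co.Main
import Pool.Agent.MP_64e20d_co.h17.OuterDefs
import Mathlib.Combinatorics.SimpleGraph.Clique

set_option autoImplicit false

namespace Pool.Agent.MP_64e20d_co.Outer

open EmbeddedTree

/-- The directed list of edges of the triangulated polygon with eighteen corners. -/
def arc (x y : ℕ) : Bool :=
  (y == (x + 1) % 18) || (x % 6 == 0 && y == (x + 6) % 18) || (x % 3 == 0 && y == (x + 3) % 18) ||
    ((x % 6 == 1 || x % 6 == 3) && y == x + 2)

/-- Adjacency in the triangulated polygon. -/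
def adj (x y : Fin 18) : Bool := arc x.val y.val || arc y.val x.val

theorem adj_symm : ∀ x y : Fin 18, adj x y = adj y x := fun _ _ => Bool.or_comm _ _

theorem adj_irrefl : ∀ x : Fin 18, adj x x = false := by decide +kernel

/-- The triangulated polygon. -/
def H : SimpleGraph (Fin 18) where
  Adj x y := adj x y = true
  symm := ⟨fun x y h => by rw [adj_symm]; exact h⟩
  loopless := ⟨fun x h => by rw [adj_irrefl] at h; exact absurd h (by decide)⟩

theorem H_adj {x y : Fin 18} : H.Adj x y ↔ adj x y = true := Iff.rfl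

/-- The elimination rank. -/
def rk (x : Fin 18) : ℕ :=
  match x.val % 6 with
  | 0 => 3 | 3 => 2 | 1 => 1 | 5 => 1 | _ => 0

theorem adj_elim : ∀ v a : Fin 18, adj v a = true → rk v ≤ rk a → ∀ b : Fin 18, adj v b = true →
    rk v ≤ rk b → a ≠ b → adj a b = true := by decide +kernel

theorem H_chordal : IsChordal H := by
  intro k
  refine ⟨fun f => ?_⟩
  obtain ⟨i, -, hi⟩ := Finset.exists_min_image Finset.univ (fun i => rk (f i))
    Finset.univ_nonempty
  have h1 : (SimpleGraph.cycleGraph (k + 4)).Adj i (i + 1) := by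
    rw [SimpleGraph.cycleGraph_adj]
    right
    simp
  have h2 : (SimpleGraph.cycleGraph (k + 4)).Adj i (i - 1) := by
    rw [SimpleGraph.cycleGraph_adj]
    left
    simp
  have h2ne : (2 : Fin (k + 4)) ≠ 0 := by
    intro h
    have := congrArg Fin.val h
    rw [Fin.val_zero] at this
    change 2 % (k + 4) = 0 at this
    rw [Nat.mod_eq_of_lt (by omega)] at this
    omega
  have h3ne : (3 : Fin (k + 4)) ≠ 0 := by
    intro h
    have := congrArg Fin.val h
    rw [Fin.val_zero] at this
    change 3 % (k + 4) = 0 at this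
    rw [Nat.mod_eq_of_lt (by omega)] at this
    omega
  have h1ne : (1 : Fin (k + 4)) ≠ 0 := by
    intro h
    have := congrArg Fin.val h
    simp at this
  have hne : i + 1 ≠ i - 1 := by
    intro h
    apply h2ne
    open Fin.CommRing in linear_combination h
  have hna : ¬ (SimpleGraph.cycleGraph (k + 4)).Adj (i + 1) (i - 1) := by
    rw [SimpleGraph.cycleGraph_adj]
    rintro (h | h)
    · apply h1ne
      open Fin.CommRing in linear_combination h
    · apply h3ne
      open Fin.CommRing in linear_combination -h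
  have hne' : f (i + 1) ≠ f (i - 1) := fun h => hne (f.injective h)
  exact hna (f.map_adj_iff.1 (adj_elim (f i) (f (i + 1)) (f.map_adj_iff.2 h1)
    (hi _ (Finset.mem_univ _)) (f (i - 1)) (f.map_adj_iff.2 h2) (hi _ (Finset.mem_univ _)) hne'))

theorem adj_nocross : ∀ a c : Fin 18, adj a c = true → ∀ b : Fin 18, a < b → b < c →
    ∀ d : Fin 18, c < d → adj b d = false := by decide +kernel

theorem H_outer : NoCrossingChords H := by
  rintro a b c d hab hbc hcd ⟨h1, h2⟩
  rw [H_adj, adj_nocross a c h1 b hab hbc d hcd] at h2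
  exact absurd h2 (by decide)

theorem adj_noK4 : ∀ a b : Fin 18, adj a b = true → ∀ c : Fin 18, adj a c = true →
    adj b c = true → ∀ d : Fin 18, adj a d = true → adj b d = true → adj c d = false := by
  decide +kernel

theorem H_cliqueFree : H.CliqueFree 4 := by
  intro s hs
  obtain ⟨a, b, c, d, hab, hac, had, hbc, hbd, hcd, rfl⟩ := Finset.card_eq_four.1 hs.card_eq
  have hcl := hs.isClique
  have h := adj_noK4 a b (hcl (by simp) (by simp) hab) c (hcl (by simp) (by simp) hac)
    (hcl (by simp) (by simp) hbc) d (hcl (by simp) (by simp) had) (hcl (by simp) (by simp) hbd)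
  have h' : adj c d = true := hcl (by simp) (by simp) hcd
  rw [h] at h'
  exact absurd h' (by decide)

/-- Non-adjacent vertices with incomparable neighborhoods. -/
def Apart (x y : Fin 18) : Prop :=
  x ≠ y ∧ adj x y = false ∧ (∃ p, adj x p = true ∧ adj y p = false ∧ y ≠ p) ∧
    ∃ q, adj y q = true ∧ adj x q = false ∧ x ≠ q

instance (x y : Fin 18) : Decidable (Apart x y) := by unfold Apart; infer_instance

section abstract

variable {α : Type} {D : α → α → ℝ} {s : α → ℝ}

/-- Two covered pairs whose paths meet are covered from different sides. -/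
theorem clash {x p y q : α} (hxp : D x p ≤ max (s x) (s p)) (hyq : D y q ≤ max (s y) (s q))
    (hxq : max (s x) (s q) < D x q) (hyp : max (s y) (s p) < D y p)
    (hle : D x q + D y p ≤ D x p + D y q) : ¬ (D x p ≤ s x ↔ D y q ≤ s y) := by
  intro h
  obtain ⟨_, _⟩ := max_lt_iff.1 hxq
  obtain ⟨_, _⟩ := max_lt_iff.1 hyp
  by_cases hA : D x p ≤ s x
  · have hB := h.1 hA
    linarith
  · have hB : ¬ D y q ≤ s y := fun h' => hA (h.2 h')
    have b1 := (le_max_iff.1 hxp).resolve_left hA
    have b2 := (le_max_iff.1 hyq).resolve_left hB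
    linarith

end abstract

theorem no_rep_abstract (D : Fin 18 → Fin 18 → ℝ) (s : Fin 18 → ℝ) (hs : ∀ a b, D a b = D b a)
    (h4 : ∀ a b c d, D a b + D c d ≤ max (D a c + D b d) (D a d + D b c))
    (hE : ∀ x y, adj x y = true → D x y ≤ max (s x) (s y))
    (hN : ∀ x y, Apart x y → max (s x) (s y) < D x y)
    (g : Fin 18 → ℝ) (hg : ∀ x y, D x y ≤ g x + g y)
    (hg4 : ∀ z x y, g z + D x y ≤ max (D z x + g y) (D z y + g x))
    (m1 : D 1 7 = g 1 + g 7) (m2 : D 7 13 = g 7 + g 13) (m3 : D 13 1 = g 13 + g 1) : False := by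
  have hQ : ∀ a b c d : Fin 18, (adj a b = true ∧ adj c d = true ∧ Apart a c ∧ Apart a d ∧
      Apart b c ∧ Apart b d) → Q D a b c d := by
    rintro a b c d ⟨h1, h2, h3, h5, h6, h7⟩
    exact Q_of_twoK2 hs h4 (hE _ _ h1) (hE _ _ h2) (hN _ _ h3) (hN _ _ h5) (hN _ _ h6) (hN _ _ h7)
  have hchain : ∀ a b c x y z w : Fin 18, Q D a b x y → Q D a b y z → Q D a b z w →
      Q D b c x y → Q D b c y z → Q D b c z w → Q D x w a c := by
    intro a b c x y z w q1 q2 q3 q4 q5 q6
    exact (((q1.trans hs h4 q2).trans hs h4 q3).symm hs).trans hs h4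
      (((q4.trans hs h4 q5).trans hs h4 q6).symm hs)
  have hthru : ∀ x w a c : Fin 18, Q D x w a c → D x w = g x + g w → D a x = g a + g x →
      D w a = g w + g a → g x + g c ≤ D x c := by
    intro x w a c q e1 e2 e3
    have a1 := q.add hs h4
    have a2 := hg4 c x w
    rw [hs c x, hs c w] at a2
    rw [hs x a] at a1
    rcases le_max_iff.1 a2 with a2 | a2 <;> linarith
  have t0 : g 1 + g 17 ≤ D 1 17 :=
    hthru 1 7 13 17 (hchain 13 15 17 1 3 6 7 (hQ _ _ _ _ (by decide +kernel))
      (hQ _ _ _ _ (by decide +kernel)) (hQ _ _ _ _ (by decide +kernel))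
      (hQ _ _ _ _ (by decide +kernel)) (hQ _ _ _ _ (by decide +kernel))
      (hQ _ _ _ _ (by decide +kernel))) m1 m3 m2
  have t6 : g 7 + g 5 ≤ D 7 5 :=
    hthru 7 13 1 5 (hchain 1 3 5 7 9 12 13 (hQ _ _ _ _ (by decide +kernel))
      (hQ _ _ _ _ (by decide +kernel)) (hQ _ _ _ _ (by decide +kernel))
      (hQ _ _ _ _ (by decide +kernel)) (hQ _ _ _ _ (by decide +kernel))
      (hQ _ _ _ _ (by decide +kernel))) m2 m1 m3
  have t12 : g 13 + g 11 ≤ D 13 11 :=
    hthru 13 1 7 11 (hchain 7 9 11 13 15 0 1 (hQ _ _ _ _ (by decide +kernel))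
      (hQ _ _ _ _ (by decide +kernel)) (hQ _ _ _ _ (by decide +kernel))
      (hQ _ _ _ _ (by decide +kernel)) (hQ _ _ _ _ (by decide +kernel))
      (hQ _ _ _ _ (by decide +kernel))) m3 m2 m1
  have hpick : ∀ z x y : Fin 18, g x + g y ≤ D x y →
      ∃ p, (p = x ∨ p = y) ∧ g z + g p ≤ D z p := by
    intro z x y h
    rcases le_max_iff.1 (hg4 z x y) with h' | h'
    · exact ⟨x, Or.inl rfl, by linarith⟩
    · exact ⟨y, Or.inr rfl, by linarith⟩
  obtain ⟨p, hp, kp⟩ := hpick 0 1 17 t0
  obtain ⟨q, hq, kq⟩ := hpick 6 7 5 t6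
  obtain ⟨r, hr, kr⟩ := hpick 12 13 11 t12
  have hcl : ∀ x p y q : Fin 18, g x + g p ≤ D x p → g y + g q ≤ D y q →
      (adj x p = true ∧ adj y q = true ∧ Apart x q ∧ Apart y p) →
      ¬ (D x p ≤ s x ↔ D y q ≤ s y) := by
    rintro x p y q k1 k2 ⟨h1, h2, h3, h5⟩
    refine clash (hE _ _ h1) (hE _ _ h2) (hN _ _ h3) (hN _ _ h5) ?_
    have := hg x q
    have := hg y p
    linarith
  have c1 := hcl 0 p 6 q kp kq (by
    rcases hp with rfl | rfl <;> rcases hq with rfl | rfl <;> decide +kernel)
  have c2 := hcl 6 q 12 r kq kr (by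
    rcases hq with rfl | rfl <;> rcases hr with rfl | rfl <;> decide +kernel)
  have c3 := hcl 0 p 12 r kp kr (by
    rcases hp with rfl | rfl <;> rcases hr with rfl | rfl <;> decide +kernel)
  tauto

theorem exists_median {T : EmbeddedTree} {a b c : Plane} (ha : a ∈ T.points) (hb : b ∈ T.points)
    (hc : c ∈ T.points) : ∃ o ∈ T.points, T.delta a b = T.delta a o + T.delta b o ∧
      T.delta b c = T.delta b o + T.delta c o ∧ T.delta c a = T.delta c o + T.delta a o := by
  have t1 := delta_triangle (T := T) b a c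
  have t2 := delta_triangle (T := T) a b c
  rw [delta_symm b a] at t1
  obtain ⟨o, ho, h1, h2⟩ := delta_geodesic ha hb
    ((T.delta a b + T.delta a c - T.delta b c) / 2) (by linarith) (by linarith)
  have e := delta_four hc ho ha hb
  have t3 := delta_triangle (T := T) a o c
  rw [delta_symm o c] at t3
  rw [delta_symm c a, delta_symm c b, delta_symm o a] at e
  refine ⟨o, ho, ?_, ?_, ?_⟩
  · rw [delta_symm b o]; linarith
  · rw [delta_symm b o]
    rcases le_max_iff.1 e with e | e <;> linarith
  · rw [delta_symm c a]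
    rcases le_max_iff.1 e with e | e <;> linarith

theorem no_rep {T : EmbeddedTree} (m : Fin 18 → Plane) (hm : ∀ v, m v ∈ T.points)
    (r t : Fin 18 → ℝ) (hrep : ∀ x y, x ≠ y → (H.Adj x y ↔
      min (t x) (t y) ≤ min (min (2 * r x) (2 * r y)) (r x + r y - T.delta (m x) (m y)))) :
    False := by
  classical
  obtain ⟨o, ho, m1, m2, m3⟩ := exists_median (hm 1) (hm 7) (hm 13)
  obtain ⟨M, hM⟩ := (Set.finite_range fun p : Fin 18 × Fin 18 =>
    r p.1 + r p.2 - T.delta (m p.1) (m p.2)).bddAbove
  have hM' : ∀ x y, r x + r y - T.delta (m x) (m y) ≤ M := fun x y => hM ⟨(x, y), rfl⟩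
  have hlt : ∀ x y p : Fin 18, x ≠ y → adj x y = false → adj x p = true → adj y p = false →
      y ≠ p → (if t y ≤ 2 * r y then - t y else - M - 1) <
        T.delta (m x) (m y) - r x - r y := by
    intro x y p hxy h1 h2 h3 hyp
    have hxp : x ≠ p := by
      rintro rfl
      rw [adj_irrefl] at h2
      exact absurd h2 (by decide)
    split_ifs with hb
    · by_contra hc
      rw [not_lt] at hc
      have n1 : ¬ H.Adj x y := by rw [H_adj, h1]; decide
      have n3 : ¬ H.Adj y p := by rw [H_adj, h3]; decide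
      rw [hrep x y hxy, le_min_iff, le_min_iff] at n1
      have k1 : 2 * r x < min (t x) (t y) := by
        by_contra hk
        exact n1 ⟨⟨not_lt.1 hk, (min_le_right _ _).trans hb⟩,
          (min_le_right _ _).trans (by linarith)⟩
      obtain ⟨k2, k3⟩ := lt_min_iff.1 k1
      have e := (hrep x p hxp).1 h2
      rw [le_min_iff, le_min_iff] at e
      obtain ⟨⟨e1, e2⟩, e3⟩ := e
      have hmin : min (t x) (t p) = t p := by
        rcases le_total (t x) (t p) with h | h
        · rw [min_eq_left h] at e1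
          linarith
        · exact min_eq_right h
      rw [hmin] at e1 e2 e3
      have tr := delta_triangle (T := T) (m y) (m x) (m p)
      rw [delta_symm (m y) (m x)] at tr
      apply n3
      rw [hrep y p hyp]
      refine (min_le_right _ _).trans (le_min (le_min ?_ e2) ?_) <;> linarith
    · have := hM' x y
      linarith
  refine no_rep_abstract (fun x y => T.delta (m x) (m y) - r x - r y)
    (fun x => if t x ≤ 2 * r x then - t x else - M - 1) ?_ ?_ ?_ ?_
    (fun x => T.delta (m x) o - r x) ?_ ?_ ?_ ?_ ?_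
  · intro a b
    rw [delta_symm]
    ring
  · intro a b c e
    rcases le_max_iff.1 (delta_four (hm a) (hm b) (hm c) (hm e)) with h | h
    · exact le_max_of_le_left (by linarith)
    · exact le_max_of_le_right (by linarith)
  · intro x y h
    have hxy : x ≠ y := by
      rintro rfl
      rw [adj_irrefl] at h
      exact absurd h (by decide)
    have e := (hrep x y hxy).1 h
    rw [le_min_iff, le_min_iff] at e
    obtain ⟨⟨e1, e2⟩, e3⟩ := e
    rcases le_total (t x) (t y) with h' | h'
    · rw [min_eq_left h'] at e1 e3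
      refine le_max_of_le_left ?_
      rw [if_pos e1]
      linarith
    · rw [min_eq_right h'] at e2 e3
      refine le_max_of_le_right ?_
      rw [if_pos e2]
      linarith
  · rintro x y ⟨hxy, h1, ⟨p, p1, p2, p3⟩, q, q1, q2, q3⟩
    refine max_lt ?_ (hlt x y p hxy h1 p1 p2 p3)
    have := hlt y x q hxy.symm (by rw [adj_symm]; exact h1) q1 q2 q3
    rw [delta_symm (m y) (m x)] at this
    linarith
  · intro x y
    have := delta_triangle (T := T) (m x) o (m y)
    rw [delta_symm o (m y)] at this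
    linarith
  · intro z x y
    have e := delta_four (hm z) ho (hm x) (hm y)
    rw [delta_symm o (m x), delta_symm o (m y)] at e
    rcases le_max_iff.1 e with h | h
    · exact le_max_of_le_left (by linarith)
    · exact le_max_of_le_right (by linarith)
  · linarith
  · linarith
  · linarith

theorem H_not_isNeST : ¬ IsNeST H := by
  rintro ⟨T, c, r, t, hc, hrep⟩
  refine no_rep c (fun v => (hc v).1) r t ?_
  intro x y hxy
  rw [hrep x y hxy, d_eq (hc x).1 (hc y).1]
  refine ⟨fun h => h.2, fun h => ⟨?_, h⟩⟩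
  have h1 : 0 < min (t x) (t y) := lt_min (hc x).2.2 (hc y).2.2
  have h2 := (le_min_iff.1 h).2
  obtain ⟨a, ha, h3, h4⟩ := exists_mem_balls (hc x).1 (hc y).1 (hc x).2.1.le (hc y).2.1.le
    (by linarith)
  exact ⟨a, (mem_nbhd (hc x).1).2 ⟨ha, h3⟩, (mem_nbhd (hc y).1).2 ⟨ha, h4⟩⟩

theorem H_not_isNeSTDiam : ¬ IsNeSTDiam H := by
  rintro ⟨T, c, r, t, hc, hrep⟩
  choose m hm ρ hρ hball u hu u' hu' h1 h2 h3 using
    fun v => recenter (hc v).1 (hc v).2.1.le
  refine no_rep m hm ρ t ?_
  intro x y hxy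
  rw [hrep x y hxy]
  exact inter_iff (lt_min (hc x).2.2 (hc y).2.2) (hm x) (hm y) (hρ x) (hρ y) (hball x) (hball y)
    (hu x) (hu' x) (h1 x) (h2 x) (h3 x) (hu y) (hu' y) (h1 y) (h2 y) (h3 y)

end Pool.Agent.MP_64e20d_co.Outer
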